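import Pool.Agent.H14.ES.Stm2
import Pool.Agent.H4.ES.SPL
import Pool.Agent.H18.ES.MIN
import Pool.Agent.H24.ES.SGP
import Pool.Agent.H26.ES.Hom
import Pool.Agent.H30.ES.APX
import Pool.Agent.H30.ES.ERG
import Pool.Agent.H30.ES.INV
import Pool.Agent.H30.ES.WAL
import Pool.Agent.H33.ES.UNT
import Pool.Agent.H40.ES.PAR
import Pool.Agent.H56.ES.MAI2
import Pool.Agent.H74.ES.REI
import Pool.Agent.H80.ES.ERC
import Pool.Agent.H94.ES.DEL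
import Pool.Agent.H94.ES.GRP2

/-!
Assembly of block I of `MP_9214e0_lc`.
-/

set_option autoImplicit false

namespace H14.ES

theorem a_REI : S_REI := Pool.Agent.H74.ES.t_REI
theorem a_ERG : S_ERG := H30.ES.t_ERG a_REI H30.ES.t_APX
theorem a_SGP : S_SGP := H24.ES.t_SGP H40.ES.t_PAR (H30.ES.t_WAL H30.ES.t_APX) a_REI
theorem a_LAW : S_LAW := H94.ES.t_LAW Pool.Agent.H74.ES.t_SIT
theorem a_DEL : S_DEL := H94.ES.t_DEL H30.ES.t_APX Pool.Agent.H74.ES.t_SIT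
theorem a_UNI : S_UNI := t_UNI a_SGP a_LAW a_DEL H4.ES.t_REP a_REI
theorem a_CHN : S_CHN := t_CHN a_UNI H18.ES.t_MIN a_ERG a_LAW a_REI
theorem a_UNT : S_UNT := H33.ES.t_UNT (H4.ES.t_ER4 a_ERG) H4.ES.t_REP a_REI a_ERG
theorem a_HOM : S_HOM := t_HOM a_CHN a_UNT a_REI
theorem a_ERC : S_ERC := H80.ES.t_ERC a_ERG
theorem a_INV : S_INV := H30.ES.t_INV a_ERC H4.ES.t_SPL a_REI
theorem a_MAI2 : S_MAI2 := H56.ES.t_MAI2 a_REI a_HOM H94.ES.t_GRP2 a_INV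

end H14.ES
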