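import Pool.Agent.H14.ES.FIN
import Pool.Agent.H46.RF.Stm

/-!
Final assembly, random forcing given by trees of positive measure.
-/

set_option autoImplicit false

namespace H14.ES

open MeasureTheory Set
open Pool.Agent.W868 (IsZFC nat)

theorem fin_tree (hMAI : S_MAI2) (hBRF : H46.RF.S_BRF) (hCOD : S_COD) (M : Set ZFSet.{0})
    (hM : IsZFC M) (hMc : M.Countable) : ¬ EssFree (H46.RF.GenRel M) := by
  obtain ⟨Θ, hΘ, ⟨N, hN, hN0, hcount⟩, hite⟩ := hBRF M hM.toIsZF hMc
  exact fin_abs hMAI hCOD (H46.RF.GenRel M) (fun _ _ h => h.symm) Θ hΘ N hN hN0 hcount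
    (fun w hw => hite w hw)

end H14.ES
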