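import Pool.Agent.H46.RF.WRD

/-! Crew RF, parts PR2 and PR3: primitive recursive functions are in `M`. -/

set_option autoImplicit false
set_option linter.unreachableTactic false
set_option linter.unusedTactic false

namespace H14.PRc

open ZFSet (pair)
open Pool.Agent.W868
open H46.RF

def G1 (f : ℕ → ℕ) (a b : ZFSet.{0}) : Prop := ∃ n, a = nat n ∧ b = nat (f n)
def G2 (f : ℕ → ℕ → ℕ) (a b c : ZFSet.{0}) : Prop :=
  ∃ m n, a = nat m ∧ b = nat n ∧ c = nat (f m n)
def G3 (f : ℕ → ℕ → ℕ → ℕ) (a b c d : ZFSet.{0}) : Prop :=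
  ∃ m n k, a = nat m ∧ b = nat n ∧ c = nat k ∧ d = nat (f m n k)

theorem mem_om {x : ZFSet.{0}} (n : ℕ) (h : x = nat n) : x ∈ ZFSet.omega :=
  mem_omega_iff.2 ⟨n, h⟩

variable {M : Set ZFSet.{0}}

theorem gr1_of (hM : IsZF M) {f : ℕ → ℕ}
    (h : Dfn M M fun w : Fin 2 → ZFSet.{0} => G1 f (w 0) (w 1)) : GrIn M f := by
  obtain ⟨g, hg, h1, h2⟩ := hM.rel_mem hM.infinity hM.infinity (Q := G1 f) h
  refine ⟨g, hg, fun z => ⟨fun hz => ?_, ?_⟩⟩
  · obtain ⟨a, ha, b, hb, rfl⟩ := ZFSet.mem_prod.1 (h1 hz)
    obtain ⟨_, _, n, rfl, rfl⟩ := (h2 _ _).1 hz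
    exact ⟨n, rfl⟩
  · rintro ⟨n, rfl⟩
    exact (h2 _ _).2 ⟨mem_om _ rfl, mem_om _ rfl, n, rfl, rfl⟩

theorem gr1_dfn (hM : IsZF M) {f : ℕ → ℕ} (h : GrIn M f) :
    Dfn M M fun w : Fin 2 → ZFSet.{0} => G1 f (w 0) (w 1) := by
  have hB := hM.base
  obtain ⟨g, hg, h1⟩ := h
  have h2 : Dfn M M fun w : Fin 2 → ZFSet.{0} => pair (w 0) (w 1) ∈ g := by
      repeat' first
        | assumption
        | exact DfnF.proj _
        | exact DfnF.const (by assumption)
        | exact Dfn.prop _
        | refine Dfn.comp2 (Q := G1 _) (by assumption) ?_ ?_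
        | refine Dfn.comp3 (Q := G2 _) (by assumption) ?_ ?_ ?_
        | refine Dfn.comp4 (Q := G3 _) (by assumption) ?_ ?_ ?_ ?_
        | apply Dfn.not | apply Dfn.and | apply Dfn.or | apply Dfn.imp | apply Dfn.iff
        | apply IsBase.bex hB | apply IsBase.ball hB | apply Dfn.ex | apply Dfn.all
        | apply Dfn.eq | apply Dfn.mem | apply IsBase.pair' hB | apply IsBase.insert' hB
  exact h2.congr fun v _ => by
    rw [h1]
    constructor
    · rintro ⟨n, hn⟩
      obtain ⟨h3, h4⟩ := ZFSet.pair_inj.1 hn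
      exact ⟨n, h3, h4⟩
    · rintro ⟨n, h3, h4⟩
      exact ⟨n, by rw [h3, h4]⟩

theorem gr2_of (hM : IsZF M) {f : ℕ → ℕ → ℕ}
    (h : Dfn M M fun w : Fin 3 → ZFSet.{0} => G2 f (w 0) (w 1) (w 2)) : Gr2 M f := by
  have hB := hM.base
  have hω := hM.infinity
  have hQ : Dfn M M fun w : Fin 2 → ZFSet.{0} =>
      ∃ m ∈ ZFSet.omega, ∃ n ∈ ZFSet.omega, w 0 = pair m n ∧ G2 f m n (w 1) := by
    repeat' first
      | assumption
      | exact DfnF.proj _
      | exact DfnF.const (by assumption)
      | exact Dfn.prop _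
      | refine Dfn.comp2 (Q := G1 _) (by assumption) ?_ ?_
      | refine Dfn.comp3 (Q := G2 _) (by assumption) ?_ ?_ ?_
      | refine Dfn.comp4 (Q := G3 _) (by assumption) ?_ ?_ ?_ ?_
      | apply Dfn.not | apply Dfn.and | apply Dfn.or | apply Dfn.imp | apply Dfn.iff
      | apply IsBase.bex hB | apply IsBase.ball hB | apply Dfn.ex | apply Dfn.all
      | apply Dfn.eq | apply Dfn.mem | apply IsBase.pair' hB | apply IsBase.insert' hB
  obtain ⟨g, hg, h1, h2⟩ := hM.rel_mem (hM.prod_mem hM.infinity hM.infinity) hM.infinity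
    (Q := fun a b => ∃ m ∈ ZFSet.omega, ∃ n ∈ ZFSet.omega, a = pair m n ∧ G2 f m n b) hQ
  refine ⟨g, hg, fun z => ⟨fun hz => ?_, ?_⟩⟩
  · obtain ⟨a, ha, b, hb, rfl⟩ := ZFSet.mem_prod.1 (h1 hz)
    obtain ⟨_, _, m, _, n, _, rfl, m', n', rfl, rfl, rfl⟩ := (h2 _ _).1 hz
    exact ⟨m', n', rfl⟩
  · rintro ⟨m, n, rfl⟩
    exact (h2 _ _).2 ⟨ZFSet.pair_mem_prod.2 ⟨mem_om _ rfl, mem_om _ rfl⟩, mem_om _ rfl,
      nat m, mem_om _ rfl, nat n, mem_om _ rfl, rfl, m, n, rfl, rfl, rfl⟩

theorem gr2_dfn (hM : IsZF M) {f : ℕ → ℕ → ℕ} (h : Gr2 M f) :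
    Dfn M M fun w : Fin 3 → ZFSet.{0} => G2 f (w 0) (w 1) (w 2) := by
  have hB := hM.base
  obtain ⟨g, hg, h1⟩ := h
  have h2 : Dfn M M fun w : Fin 3 → ZFSet.{0} => pair (pair (w 0) (w 1)) (w 2) ∈ g := by
      repeat' first
        | assumption
        | exact DfnF.proj _
        | exact DfnF.const (by assumption)
        | exact Dfn.prop _
        | refine Dfn.comp2 (Q := G1 _) (by assumption) ?_ ?_
        | refine Dfn.comp3 (Q := G2 _) (by assumption) ?_ ?_ ?_
        | refine Dfn.comp4 (Q := G3 _) (by assumption) ?_ ?_ ?_ ?_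
        | apply Dfn.not | apply Dfn.and | apply Dfn.or | apply Dfn.imp | apply Dfn.iff
        | apply IsBase.bex hB | apply IsBase.ball hB | apply Dfn.ex | apply Dfn.all
        | apply Dfn.eq | apply Dfn.mem | apply IsBase.pair' hB | apply IsBase.insert' hB
  exact h2.congr fun v _ => by
    rw [h1]
    constructor
    · rintro ⟨m, n, hn⟩
      obtain ⟨h3, h4⟩ := ZFSet.pair_inj.1 hn
      obtain ⟨h5, h6⟩ := ZFSet.pair_inj.1 h3
      exact ⟨m, n, h5, h6, h4⟩
    · rintro ⟨m, n, h3, h4, h5⟩
      exact ⟨m, n, by rw [h3, h4, h5]⟩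

theorem gr3_of (hM : IsZF M) {f : ℕ → ℕ → ℕ → ℕ}
    (h : Dfn M M fun w : Fin 4 → ZFSet.{0} => G3 f (w 0) (w 1) (w 2) (w 3)) : Gr3 M f := by
  have hB := hM.base
  have hω := hM.infinity
  have hQ : Dfn M M fun w : Fin 2 → ZFSet.{0} =>
      ∃ m ∈ ZFSet.omega, ∃ n ∈ ZFSet.omega, ∃ k ∈ ZFSet.omega,
        w 0 = pair m (pair n k) ∧ G3 f m n k (w 1) := by
    repeat' first
      | assumption
      | exact DfnF.proj _
      | exact DfnF.const (by assumption)
      | exact Dfn.prop _
      | refine Dfn.comp2 (Q := G1 _) (by assumption) ?_ ?_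
      | refine Dfn.comp3 (Q := G2 _) (by assumption) ?_ ?_ ?_
      | refine Dfn.comp4 (Q := G3 _) (by assumption) ?_ ?_ ?_ ?_
      | apply Dfn.not | apply Dfn.and | apply Dfn.or | apply Dfn.imp | apply Dfn.iff
      | apply IsBase.bex hB | apply IsBase.ball hB | apply Dfn.ex | apply Dfn.all
      | apply Dfn.eq | apply Dfn.mem | apply IsBase.pair' hB | apply IsBase.insert' hB
  obtain ⟨g, hg, h1, h2⟩ := hM.rel_mem (hM.prod_mem hM.infinity
    (hM.prod_mem hM.infinity hM.infinity)) hM.infinity
    (Q := fun a b => ∃ m ∈ ZFSet.omega, ∃ n ∈ ZFSet.omega, ∃ k ∈ ZFSet.omega,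
        a = pair m (pair n k) ∧ G3 f m n k b) hQ
  refine ⟨g, hg, fun z => ⟨fun hz => ?_, ?_⟩⟩
  · obtain ⟨a, ha, b, hb, rfl⟩ := ZFSet.mem_prod.1 (h1 hz)
    obtain ⟨_, _, m, _, n, _, k, _, rfl, m', n', k', rfl, rfl, rfl, rfl⟩ := (h2 _ _).1 hz
    exact ⟨m', n', k', rfl⟩
  · rintro ⟨m, n, k, rfl⟩
    exact (h2 _ _).2 ⟨ZFSet.pair_mem_prod.2 ⟨mem_om _ rfl,
      ZFSet.pair_mem_prod.2 ⟨mem_om _ rfl, mem_om _ rfl⟩⟩, mem_om _ rfl,
      nat m, mem_om _ rfl, nat n, mem_om _ rfl, nat k, mem_om _ rfl, rfl,
      m, n, k, rfl, rfl, rfl, rfl⟩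

theorem gr3_dfn (hM : IsZF M) {f : ℕ → ℕ → ℕ → ℕ} (h : Gr3 M f) :
    Dfn M M fun w : Fin 4 → ZFSet.{0} => G3 f (w 0) (w 1) (w 2) (w 3) := by
  have hB := hM.base
  obtain ⟨g, hg, h1⟩ := h
  have h2 : Dfn M M fun w : Fin 4 → ZFSet.{0} =>
      pair (pair (w 0) (pair (w 1) (w 2))) (w 3) ∈ g := by
          repeat' first
            | assumption
            | exact DfnF.proj _
            | exact DfnF.const (by assumption)
            | exact Dfn.prop _
            | refine Dfn.comp2 (Q := G1 _) (by assumption) ?_ ?_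
            | refine Dfn.comp3 (Q := G2 _) (by assumption) ?_ ?_ ?_
            | refine Dfn.comp4 (Q := G3 _) (by assumption) ?_ ?_ ?_ ?_
            | apply Dfn.not | apply Dfn.and | apply Dfn.or | apply Dfn.imp | apply Dfn.iff
            | apply IsBase.bex hB | apply IsBase.ball hB | apply Dfn.ex | apply Dfn.all
            | apply Dfn.eq | apply Dfn.mem | apply IsBase.pair' hB | apply IsBase.insert' hB
  exact h2.congr fun v _ => by
    rw [h1]
    constructor
    · rintro ⟨m, n, k, hn⟩
      obtain ⟨h3, h4⟩ := ZFSet.pair_inj.1 hn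
      obtain ⟨h5, h6⟩ := ZFSet.pair_inj.1 h3
      obtain ⟨h7, h8⟩ := ZFSet.pair_inj.1 h6
      exact ⟨m, n, k, h5, h7, h8, h4⟩
    · rintro ⟨m, n, k, h3, h4, h5, h6⟩
      exact ⟨m, n, k, by rw [h3, h4, h5, h6]⟩

theorem nat_lt {m n : ℕ} : nat m ∈ nat n ↔ m < n := by
  rw [mem_nat_iff]
  constructor
  · rintro ⟨k, hk, h⟩
    rw [nat_injective h]; exact hk
  · intro h
    exact ⟨m, h, rfl⟩

theorem pr2 (h : S_PR1) : S_PR2 := by
  intro M hM
  have hB := hM.base
  have hω := hM.infinity
  have h0 : nat 0 ∈ M := hM.nat_mem 0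
  have hid : GrIn M fun m => m := by
    apply gr1_of hM
    have h1 : Dfn M M fun w : Fin 2 → ZFSet.{0} => w 0 ∈ ZFSet.omega ∧ w 1 = w 0 := by
        repeat' first
          | assumption
          | exact DfnF.proj _
          | exact DfnF.const (by assumption)
          | exact Dfn.prop _
          | refine Dfn.comp2 (Q := G1 _) (by assumption) ?_ ?_
          | refine Dfn.comp3 (Q := G2 _) (by assumption) ?_ ?_ ?_
          | refine Dfn.comp4 (Q := G3 _) (by assumption) ?_ ?_ ?_ ?_
          | apply Dfn.not | apply Dfn.and | apply Dfn.or | apply Dfn.imp | apply Dfn.iff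
          | apply IsBase.bex hB | apply IsBase.ball hB | apply Dfn.ex | apply Dfn.all
          | apply Dfn.eq | apply Dfn.mem | apply IsBase.pair' hB | apply IsBase.insert' hB
    exact h1.congr fun v _ => by
      constructor
      · rintro ⟨h1, h2⟩
        obtain ⟨n, hn⟩ := mem_omega_iff.1 h1
        exact ⟨n, hn, by rw [h2, hn]⟩
      · rintro ⟨n, h1, h2⟩
        exact ⟨mem_om n h1, by rw [h1, h2]⟩
  have hs : Gr3 M fun _ _ k => k + 1 := by
    apply gr3_of hM
    have h1 : Dfn M M fun w : Fin 4 → ZFSet.{0} => w 0 ∈ ZFSet.omega ∧ w 1 ∈ ZFSet.omega ∧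
        w 2 ∈ ZFSet.omega ∧ w 3 = insert (w 2) (w 2) := by
            repeat' first
              | assumption
              | exact DfnF.proj _
              | exact DfnF.const (by assumption)
              | exact Dfn.prop _
              | refine Dfn.comp2 (Q := G1 _) (by assumption) ?_ ?_
              | refine Dfn.comp3 (Q := G2 _) (by assumption) ?_ ?_ ?_
              | refine Dfn.comp4 (Q := G3 _) (by assumption) ?_ ?_ ?_ ?_
              | apply Dfn.not | apply Dfn.and | apply Dfn.or | apply Dfn.imp | apply Dfn.iff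
              | apply IsBase.bex hB | apply IsBase.ball hB | apply Dfn.ex | apply Dfn.all
              | apply Dfn.eq | apply Dfn.mem | apply IsBase.pair' hB | apply IsBase.insert' hB
    exact h1.congr fun v _ => by
      constructor
      · rintro ⟨h1, h2, h3, h4⟩
        obtain ⟨m, hm⟩ := mem_omega_iff.1 h1
        obtain ⟨n, hn⟩ := mem_omega_iff.1 h2
        obtain ⟨k, hk⟩ := mem_omega_iff.1 h3
        exact ⟨m, n, k, hm, hn, hk, by rw [h4, hk]; rfl⟩
      · rintro ⟨m, n, k, h1, h2, h3, h4⟩
        exact ⟨mem_om _ h1, mem_om _ h2, mem_om _ h3, by rw [h4, h3]; rfl⟩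
  have hadd : Gr2 M fun m n => m + n := by
    have h1 := h M hM (fun m => m) (fun _ _ k => k + 1) hid hs
    have h2 : (fun m n : ℕ => (Nat.rec m (fun _ ih => ih + 1) n : ℕ)) = fun m n => m + n := by
      funext m n
      induction n with
      | zero => rfl
      | succ n ih => simp only [ih]; omega
    exact h2 ▸ h1
  have hadd' := gr2_dfn hM hadd
  have hz : GrIn M fun _ => 0 := by
    apply gr1_of hM
    have h1 : Dfn M M fun w : Fin 2 → ZFSet.{0} => w 0 ∈ ZFSet.omega ∧ w 1 = nat 0 := by
        repeat' first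
          | assumption
          | exact DfnF.proj _
          | exact DfnF.const (by assumption)
          | exact Dfn.prop _
          | refine Dfn.comp2 (Q := G1 _) (by assumption) ?_ ?_
          | refine Dfn.comp3 (Q := G2 _) (by assumption) ?_ ?_ ?_
          | refine Dfn.comp4 (Q := G3 _) (by assumption) ?_ ?_ ?_ ?_
          | apply Dfn.not | apply Dfn.and | apply Dfn.or | apply Dfn.imp | apply Dfn.iff
          | apply IsBase.bex hB | apply IsBase.ball hB | apply Dfn.ex | apply Dfn.all
          | apply Dfn.eq | apply Dfn.mem | apply IsBase.pair' hB | apply IsBase.insert' hB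
    exact h1.congr fun v _ => by
      constructor
      · rintro ⟨h1, h2⟩
        obtain ⟨n, hn⟩ := mem_omega_iff.1 h1
        exact ⟨n, hn, h2⟩
      · rintro ⟨n, h1, h2⟩
        exact ⟨mem_om n h1, h2⟩
  have hs2 : Gr3 M fun m _ k => k + m := by
    apply gr3_of hM
    have h1 : Dfn M M fun w : Fin 4 → ZFSet.{0} => w 1 ∈ ZFSet.omega ∧
        G2 (fun m n => m + n) (w 2) (w 0) (w 3) := by
            repeat' first
              | assumption
              | exact DfnF.proj _
              | exact DfnF.const (by assumption)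
              | exact Dfn.prop _
              | refine Dfn.comp2 (Q := G1 _) (by assumption) ?_ ?_
              | refine Dfn.comp3 (Q := G2 _) (by assumption) ?_ ?_ ?_
              | refine Dfn.comp4 (Q := G3 _) (by assumption) ?_ ?_ ?_ ?_
              | apply Dfn.not | apply Dfn.and | apply Dfn.or | apply Dfn.imp | apply Dfn.iff
              | apply IsBase.bex hB | apply IsBase.ball hB | apply Dfn.ex | apply Dfn.all
              | apply Dfn.eq | apply Dfn.mem | apply IsBase.pair' hB | apply IsBase.insert' hB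
    exact h1.congr fun v _ => by
      constructor
      · rintro ⟨h1, k, m, h2, h3, h4⟩
        obtain ⟨n, hn⟩ := mem_omega_iff.1 h1
        exact ⟨m, n, k, h3, hn, h2, h4⟩
      · rintro ⟨m, n, k, h1, h2, h3, h4⟩
        exact ⟨mem_om _ h2, k, m, h3, h1, h4⟩
  have hmul : Gr2 M fun m n => m * n := by
    have h1 := h M hM (fun _ => 0) (fun m _ k => k + m) hz hs2
    have h2 : (fun m n : ℕ => (Nat.rec 0 (fun _ ih => ih + m) n : ℕ)) = fun m n => m * n := by
      funext m n
      induction n with
      | zero => rfl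
      | succ n ih => simp only [ih]; rw [Nat.mul_succ]
    exact h2 ▸ h1
  have hmul' := gr2_dfn hM hmul
  apply gr2_of hM
  have h1 : Dfn M M fun w : Fin 3 → ZFSet.{0} => w 0 ∈ ZFSet.omega ∧ w 1 ∈ ZFSet.omega ∧
      ((w 0 ∈ w 1 ∧ ∃ t ∈ ZFSet.omega, G2 (fun m n => m * n) (w 1) (w 1) t ∧
        G2 (fun m n => m + n) t (w 0) (w 2)) ∨
      (¬ w 0 ∈ w 1 ∧ ∃ t ∈ ZFSet.omega, G2 (fun m n => m * n) (w 0) (w 0) t ∧
        ∃ u ∈ ZFSet.omega, G2 (fun m n => m + n) t (w 0) u ∧
          G2 (fun m n => m + n) u (w 1) (w 2))) := by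
              repeat' first
                | assumption
                | exact DfnF.proj _
                | exact DfnF.const (by assumption)
                | exact Dfn.prop _
                | refine Dfn.comp2 (Q := G1 _) (by assumption) ?_ ?_
                | refine Dfn.comp3 (Q := G2 _) (by assumption) ?_ ?_ ?_
                | refine Dfn.comp4 (Q := G3 _) (by assumption) ?_ ?_ ?_ ?_
                | apply Dfn.not | apply Dfn.and | apply Dfn.or | apply Dfn.imp | apply Dfn.iff
                | apply IsBase.bex hB | apply IsBase.ball hB | apply Dfn.ex | apply Dfn.all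
                | apply Dfn.eq | apply Dfn.mem | apply IsBase.pair' hB | apply IsBase.insert' hB
  have hg : ∀ (f : ℕ → ℕ → ℕ) (m n : ℕ) (c : ZFSet.{0}), G2 f (nat m) (nat n) c ↔
      c = nat (f m n) := by
    intro f m n c
    constructor
    · rintro ⟨m', n', h1, h2, h3⟩
      rw [nat_injective h1, nat_injective h2]; exact h3
    · intro h
      exact ⟨m, n, rfl, rfl, h⟩
  exact h1.congr fun v _ => by
    constructor
    · rintro ⟨h1, h2, h3⟩
      obtain ⟨m, hm⟩ := mem_omega_iff.1 h1
      obtain ⟨n, hn⟩ := mem_omega_iff.1 h2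
      refine ⟨m, n, hm, hn, ?_⟩
      rw [hm, hn] at h3
      rcases h3 with ⟨h4, t, ht, h5, h6⟩ | ⟨h4, t, ht, h5, u, hu, h6, h7⟩
      · rw [hg] at h5
        subst h5
        rw [hg] at h6
        rw [h6, Nat.pair, if_pos (nat_lt.1 h4)]
      · rw [hg] at h5
        subst h5
        rw [hg] at h6
        subst h6
        rw [hg] at h7
        rw [h7, Nat.pair, if_neg (fun h => h4 (nat_lt.2 h))]
    · rintro ⟨m, n, hm, hn, h3⟩
      refine ⟨mem_om _ hm, mem_om _ hn, ?_⟩
      rw [hm, hn, h3]
      by_cases hmn : m < n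
      · left
        refine ⟨nat_lt.2 hmn, nat (n * n), mem_om _ rfl, (hg _ _ _ _).2 rfl, ?_⟩
        rw [hg, Nat.pair, if_pos hmn]
      · right
        refine ⟨fun h => hmn (nat_lt.1 h), nat (m * m), mem_om _ rfl, (hg _ _ _ _).2 rfl,
          nat (m * m + m), mem_om _ rfl, (hg _ _ _ _).2 rfl, ?_⟩
        rw [hg, Nat.pair, if_neg hmn]

theorem pr3 (h1 : S_PR1) (h2 : S_PR2) : S_PR3 := by
  intro M hM f hf
  have hB := hM.base
  have hω := hM.infinity
  have h0 : nat 0 ∈ M := hM.nat_mem 0
  have hp := gr2_dfn hM (h2 M hM)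
  induction hf with
  | zero =>
    apply gr1_of hM
    have h1 : Dfn M M fun w : Fin 2 → ZFSet.{0} => w 0 ∈ ZFSet.omega ∧ w 1 = nat 0 := by
        repeat' first
          | assumption
          | exact DfnF.proj _
          | exact DfnF.const (by assumption)
          | exact Dfn.prop _
          | refine Dfn.comp2 (Q := G1 _) (by assumption) ?_ ?_
          | refine Dfn.comp3 (Q := G2 _) (by assumption) ?_ ?_ ?_
          | refine Dfn.comp4 (Q := G3 _) (by assumption) ?_ ?_ ?_ ?_
          | apply Dfn.not | apply Dfn.and | apply Dfn.or | apply Dfn.imp | apply Dfn.iff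
          | apply IsBase.bex hB | apply IsBase.ball hB | apply Dfn.ex | apply Dfn.all
          | apply Dfn.eq | apply Dfn.mem | apply IsBase.pair' hB | apply IsBase.insert' hB
    exact h1.congr fun v _ => by
      constructor
      · rintro ⟨h1, h2⟩
        obtain ⟨n, hn⟩ := mem_omega_iff.1 h1
        exact ⟨n, hn, h2⟩
      · rintro ⟨n, h1, h2⟩
        exact ⟨mem_om n h1, h2⟩
  | succ =>
    apply gr1_of hM
    have h1 : Dfn M M fun w : Fin 2 → ZFSet.{0} => w 0 ∈ ZFSet.omega ∧
        w 1 = insert (w 0) (w 0) := by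
            repeat' first
              | assumption
              | exact DfnF.proj _
              | exact DfnF.const (by assumption)
              | exact Dfn.prop _
              | refine Dfn.comp2 (Q := G1 _) (by assumption) ?_ ?_
              | refine Dfn.comp3 (Q := G2 _) (by assumption) ?_ ?_ ?_
              | refine Dfn.comp4 (Q := G3 _) (by assumption) ?_ ?_ ?_ ?_
              | apply Dfn.not | apply Dfn.and | apply Dfn.or | apply Dfn.imp | apply Dfn.iff
              | apply IsBase.bex hB | apply IsBase.ball hB | apply Dfn.ex | apply Dfn.all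
              | apply Dfn.eq | apply Dfn.mem | apply IsBase.pair' hB | apply IsBase.insert' hB
    exact h1.congr fun v _ => by
      constructor
      · rintro ⟨h1, h2⟩
        obtain ⟨n, hn⟩ := mem_omega_iff.1 h1
        exact ⟨n, hn, by rw [h2, hn]; rfl⟩
      · rintro ⟨n, h1, h2⟩
        exact ⟨mem_om n h1, by rw [h2, h1]; rfl⟩
  | left =>
    apply gr1_of hM
    have h1 : Dfn M M fun w : Fin 2 → ZFSet.{0} => w 0 ∈ ZFSet.omega ∧ ∃ b ∈ ZFSet.omega,
        G2 Nat.pair (w 1) b (w 0) := by
            repeat' first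
              | assumption
              | exact DfnF.proj _
              | exact DfnF.const (by assumption)
              | exact Dfn.prop _
              | refine Dfn.comp2 (Q := G1 _) (by assumption) ?_ ?_
              | refine Dfn.comp3 (Q := G2 _) (by assumption) ?_ ?_ ?_
              | refine Dfn.comp4 (Q := G3 _) (by assumption) ?_ ?_ ?_ ?_
              | apply Dfn.not | apply Dfn.and | apply Dfn.or | apply Dfn.imp | apply Dfn.iff
              | apply IsBase.bex hB | apply IsBase.ball hB | apply Dfn.ex | apply Dfn.all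
              | apply Dfn.eq | apply Dfn.mem | apply IsBase.pair' hB | apply IsBase.insert' hB
    exact h1.congr fun v _ => by
      constructor
      · rintro ⟨_, _, _, m, n, h1, h2, h3⟩
        exact ⟨Nat.pair m n, h3, by rw [h1]; simp⟩
      · rintro ⟨n, h1, h2⟩
        exact ⟨mem_om n h1, nat n.unpair.2, mem_om _ rfl, n.unpair.1, n.unpair.2, h2, rfl,
          by rw [h1, Nat.pair_unpair]⟩
  | right =>
    apply gr1_of hM
    have h1 : Dfn M M fun w : Fin 2 → ZFSet.{0} => w 0 ∈ ZFSet.omega ∧ ∃ b ∈ ZFSet.omega,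
        G2 Nat.pair b (w 1) (w 0) := by
            repeat' first
              | assumption
              | exact DfnF.proj _
              | exact DfnF.const (by assumption)
              | exact Dfn.prop _
              | refine Dfn.comp2 (Q := G1 _) (by assumption) ?_ ?_
              | refine Dfn.comp3 (Q := G2 _) (by assumption) ?_ ?_ ?_
              | refine Dfn.comp4 (Q := G3 _) (by assumption) ?_ ?_ ?_ ?_
              | apply Dfn.not | apply Dfn.and | apply Dfn.or | apply Dfn.imp | apply Dfn.iff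
              | apply IsBase.bex hB | apply IsBase.ball hB | apply Dfn.ex | apply Dfn.all
              | apply Dfn.eq | apply Dfn.mem | apply IsBase.pair' hB | apply IsBase.insert' hB
    exact h1.congr fun v _ => by
      constructor
      · rintro ⟨_, _, _, m, n, h1, h2, h3⟩
        exact ⟨Nat.pair m n, h3, by rw [h2]; simp⟩
      · rintro ⟨n, h1, h2⟩
        exact ⟨mem_om n h1, nat n.unpair.1, mem_om _ rfl, n.unpair.1, n.unpair.2, rfl, h2,
          by rw [h1, Nat.pair_unpair]⟩
  | pair hf hg ihf ihg =>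
    rename_i f g
    have hf' := gr1_dfn hM ihf
    have hg' := gr1_dfn hM ihg
    apply gr1_of hM
    have h1 : Dfn M M fun w : Fin 2 → ZFSet.{0} => ∃ a ∈ ZFSet.omega, ∃ b ∈ ZFSet.omega,
        G1 f (w 0) a ∧ G1 g (w 0) b ∧ G2 Nat.pair a b (w 1) := by
            repeat' first
              | assumption
              | exact DfnF.proj _
              | exact DfnF.const (by assumption)
              | exact Dfn.prop _
              | refine Dfn.comp2 (Q := G1 _) (by assumption) ?_ ?_
              | refine Dfn.comp3 (Q := G2 _) (by assumption) ?_ ?_ ?_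
              | refine Dfn.comp4 (Q := G3 _) (by assumption) ?_ ?_ ?_ ?_
              | apply Dfn.not | apply Dfn.and | apply Dfn.or | apply Dfn.imp | apply Dfn.iff
              | apply IsBase.bex hB | apply IsBase.ball hB | apply Dfn.ex | apply Dfn.all
              | apply Dfn.eq | apply Dfn.mem | apply IsBase.pair' hB | apply IsBase.insert' hB
    exact h1.congr fun v _ => by
      constructor
      · rintro ⟨a, _, b, _, ⟨n, h1, h2⟩, ⟨n', h3, h4⟩, m, k, h5, h6, h7⟩
        obtain rfl : n = n' := nat_injective (h1.symm.trans h3)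
        obtain rfl : f n = m := nat_injective (h2.symm.trans h5)
        obtain rfl : g n = k := nat_injective (h4.symm.trans h6)
        exact ⟨n, h1, h7⟩
      · rintro ⟨n, h1, h2⟩
        exact ⟨nat (f n), mem_om _ rfl, nat (g n), mem_om _ rfl, ⟨n, h1, rfl⟩, ⟨n, h1, rfl⟩,
          f n, g n, rfl, rfl, h2⟩
  | comp hf hg ihf ihg =>
    rename_i f g
    have hf' := gr1_dfn hM ihf
    have hg' := gr1_dfn hM ihg
    apply gr1_of hM
    have h1 : Dfn M M fun w : Fin 2 → ZFSet.{0} => ∃ a ∈ ZFSet.omega,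
        G1 g (w 0) a ∧ G1 f a (w 1) := by
            repeat' first
              | assumption
              | exact DfnF.proj _
              | exact DfnF.const (by assumption)
              | exact Dfn.prop _
              | refine Dfn.comp2 (Q := G1 _) (by assumption) ?_ ?_
              | refine Dfn.comp3 (Q := G2 _) (by assumption) ?_ ?_ ?_
              | refine Dfn.comp4 (Q := G3 _) (by assumption) ?_ ?_ ?_ ?_
              | apply Dfn.not | apply Dfn.and | apply Dfn.or | apply Dfn.imp | apply Dfn.iff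
              | apply IsBase.bex hB | apply IsBase.ball hB | apply Dfn.ex | apply Dfn.all
              | apply Dfn.eq | apply Dfn.mem | apply IsBase.pair' hB | apply IsBase.insert' hB
    exact h1.congr fun v _ => by
      constructor
      · rintro ⟨a, _, ⟨n, h1, h2⟩, ⟨n', h3, h4⟩⟩
        obtain rfl : g n = n' := nat_injective (h2.symm.trans h3)
        exact ⟨n, h1, h4⟩
      · rintro ⟨n, h1, h2⟩
        exact ⟨nat (g n), mem_om _ rfl, ⟨n, h1, rfl⟩, g n, rfl, h2⟩
  | prec hf hg ihf ihg =>
    rename_i f g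
    have hg' := gr1_dfn hM ihg
    have hs : Gr3 M fun m y ih => g (Nat.pair m (Nat.pair y ih)) := by
      apply gr3_of hM
      have h1 : Dfn M M fun w : Fin 4 → ZFSet.{0} => ∃ a ∈ ZFSet.omega, ∃ b ∈ ZFSet.omega,
          G2 Nat.pair (w 1) (w 2) a ∧ G2 Nat.pair (w 0) a b ∧ G1 g b (w 3) := by
              repeat' first
                | assumption
                | exact DfnF.proj _
                | exact DfnF.const (by assumption)
                | exact Dfn.prop _
                | refine Dfn.comp2 (Q := G1 _) (by assumption) ?_ ?_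
                | refine Dfn.comp3 (Q := G2 _) (by assumption) ?_ ?_ ?_
                | refine Dfn.comp4 (Q := G3 _) (by assumption) ?_ ?_ ?_ ?_
                | apply Dfn.not | apply Dfn.and | apply Dfn.or | apply Dfn.imp | apply Dfn.iff
                | apply IsBase.bex hB | apply IsBase.ball hB | apply Dfn.ex | apply Dfn.all
                | apply Dfn.eq | apply Dfn.mem | apply IsBase.pair' hB | apply IsBase.insert' hB
      exact h1.congr fun v _ => by
        constructor
        · rintro ⟨a, _, b, _, ⟨y, i, h1, h2, h3⟩, ⟨m, a', h4, h5, h6⟩, ⟨b', h7, h8⟩⟩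
          obtain rfl : Nat.pair y i = a' := nat_injective (h3.symm.trans h5)
          obtain rfl : Nat.pair m (Nat.pair y i) = b' := nat_injective (h6.symm.trans h7)
          exact ⟨m, y, i, h4, h1, h2, h8⟩
        · rintro ⟨m, y, i, h4, h1, h2, h8⟩
          exact ⟨nat (Nat.pair y i), mem_om _ rfl, nat (Nat.pair m (Nat.pair y i)), mem_om _ rfl,
            ⟨y, i, h1, h2, rfl⟩, ⟨m, _, h4, rfl, rfl⟩, ⟨_, rfl, h8⟩⟩
    have hr := gr2_dfn hM (h1 M hM f (fun m y ih => g (Nat.pair m (Nat.pair y ih))) ihf hs)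
    apply gr1_of hM
    have h3 : Dfn M M fun w : Fin 2 → ZFSet.{0} => ∃ a ∈ ZFSet.omega, ∃ b ∈ ZFSet.omega,
        G2 Nat.pair a b (w 0) ∧ G2 (fun m n => Nat.rec (f m)
          (fun y ih => g (Nat.pair m (Nat.pair y ih))) n) a b (w 1) := by
              repeat' first
                | assumption
                | exact DfnF.proj _
                | exact DfnF.const (by assumption)
                | exact Dfn.prop _
                | refine Dfn.comp2 (Q := G1 _) (by assumption) ?_ ?_
                | refine Dfn.comp3 (Q := G2 _) (by assumption) ?_ ?_ ?_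
                | refine Dfn.comp4 (Q := G3 _) (by assumption) ?_ ?_ ?_ ?_
                | apply Dfn.not | apply Dfn.and | apply Dfn.or | apply Dfn.imp | apply Dfn.iff
                | apply IsBase.bex hB | apply IsBase.ball hB | apply Dfn.ex | apply Dfn.all
                | apply Dfn.eq | apply Dfn.mem | apply IsBase.pair' hB | apply IsBase.insert' hB
    exact h3.congr fun v _ => by
      constructor
      · rintro ⟨a, _, b, _, ⟨m, n, h1, h2, h3⟩, ⟨m', n', h4, h5, h6⟩⟩
        obtain rfl : m = m' := nat_injective (h1.symm.trans h4)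
        obtain rfl : n = n' := nat_injective (h2.symm.trans h5)
        refine ⟨Nat.pair m n, h3, ?_⟩
        rw [h6]
        simp only [Nat.unpaired, Nat.unpair_pair]
      · rintro ⟨n, h1, h2⟩
        refine ⟨nat n.unpair.1, mem_om _ rfl, nat n.unpair.2, mem_om _ rfl,
          ⟨_, _, rfl, rfl, by rw [h1, Nat.pair_unpair]⟩, ⟨_, _, rfl, rfl, ?_⟩⟩
        rw [h2]

end H14.PRc
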