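import Pool.Agent.H14.ES.AsmI
import Pool.Agent.H14.ES.FINT
import Pool.Agent.H12.ES.COD
import Pool.Agent.H2.RF.PRA
import Pool.Agent.H16.RF.DM
import Pool.Agent.H24.RF.TRN
import Pool.Agent.H33.RF.CHK
import Pool.Agent.H33.RF.DEN
import Pool.Agent.H33.RF.REA
import Pool.Agent.H46.RF.PRB
import Pool.Agent.H46.RF.WRD
import Pool.Agent.H61.RF.DM1
import Pool.Agent.H65.RF.BRF
import Pool.Agent.H65.RF.CNT
import Pool.Agent.H65.RF.GEN
import Pool.Agent.H14.ES.PRc
import Pool.Agent.H85.RF.EQV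
import Pool.Agent.H85.RF.PRE
import Pool.Agent.H87.RF.PR1
import Pool.Agent.H98.RF.BIG
import Pool.Agent.H98.RF.TST

/-!
Assembly of block II of `MP_9214e0_lc`: random forcing given by trees of positive measure.
-/

set_option autoImplicit false

namespace H14.ES

open H46.RF

theorem a_BIG : S_BIG := H98.RF.big wrd H16.RF.bms
theorem a_DEN : S_DEN := H33.RF.den wrd H16.RF.bms H61.RF.t_DM1 H16.RF.dm2 H16.RF.dm3
  (H98.RF.tst wrd a_BIG)
theorem a_GEN : S_GEN := H65.RF.gen wrd H16.RF.bms a_DEN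
theorem a_PR3 : S_PR3 := H14.PRc.pr3 H87.RF.pr1 (H14.PRc.pr2 H87.RF.pr1)
theorem a_PRE : S_PRE := H85.RF.pre (H2.RF.pra wrd) prb H16.RF.bms
theorem a_EQV : S_EQV := H85.RF.eqv a_PR3 H24.RF.trn a_PRE
theorem a_REA : S_REA := H33.RF.rea wrd H33.RF.chk H16.RF.bms
theorem a_CNT : S_CNT := H65.RF.cnt a_REA
theorem a_BRF : S_BRF := H65.RF.brf H16.RF.bms a_GEN a_CNT a_EQV

/-- The equivalence of random generics over a countable transitive model of ZFC is not essentially
free (random forcing given by trees). -/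
theorem a_tree (M : Set ZFSet.{0}) (hM : Pool.Agent.W868.IsZFC M) (hMc : M.Countable) :
    ¬ EssFree (H46.RF.GenRel M) :=
  fin_tree a_MAI2 a_BRF H12.ES.t_COD M hM hMc

end H14.ES
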