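import Mathlib

/-!
Definitions for the crew ES (`MP_9214e0_lc`): fair coin configurations on a countable index set,
permutations of the index set, layers, resampling.
-/

set_option autoImplicit false

namespace H14.ES

open MeasureTheory Set
open scoped ENNReal commutatorElement

/-- the fair coin -/
noncomputable def coin : Measure Bool := (2⁻¹ : ℝ≥0∞) • (Measure.dirac true + Measure.dirac false)

instance : IsProbabilityMeasure coin := ⟨by
  simp only [coin, Measure.smul_apply, Measure.add_apply, measure_univ, smul_eq_mul]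
  rw [one_add_one_eq_two]
  exact ENNReal.inv_mul_cancel (by simp) (by simp)⟩

/-- independent fair coins indexed by `I` -/
noncomputable def mu (I : Type) : Measure (I → Bool) := Measure.infinitePi (fun _ : I => coin)

instance (I : Type) : IsProbabilityMeasure (mu I) :=
  inferInstanceAs (IsProbabilityMeasure (Measure.infinitePi (fun _ : I => coin)))

/-- the action of a permutation of the index set on the configurations -/
def sh {I : Type} (p : Equiv.Perm I) (ω : I → Bool) : I → Bool := fun i => ω (p⁻¹ i)

/-- a permutation of `D` acts on `D × ℕ` -/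
def lift {D : Type} (p : Equiv.Perm D) : Equiv.Perm (D × ℕ) := Equiv.prodCongr p (Equiv.refl ℕ)

/-- the `n`-th layer -/
def lay {D : Type} (n : ℕ) (ω : D × ℕ → Bool) : D → Bool := fun d => ω (d, n)

/-- the label in `{0, ..., 2 ^ m - 1}` given by the bits `2, ..., m + 1` -/
def lab (m : ℕ) (u : ℕ → Bool) : ℕ := ∑ j ∈ Finset.range m, if u (j + 2) then 2 ^ j else 0

/-- interpolation between layer `0` (for `j = 0`) and layer `1` (for `j = 2 ^ m`) -/
def pt {D : Type} (m j : ℕ) (ω : D × ℕ → Bool) : D → Bool :=
  fun d => if lab m (fun n => ω (d, n)) < j then ω (d, 1) else ω (d, 0)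

/-- layer `0`, replaced by layer `1` at the sites with label `i` (there are `2 ^ m` labels) -/
def rs {D : Type} (m i : ℕ) (ω : D × ℕ → Bool) : D → Bool :=
  fun d => if lab m (fun n => ω (d, n)) = i then ω (d, 1) else ω (d, 0)

/-- the law of (configuration, configuration resampled with probability `2 ^ (-m)` at every site) -/
noncomputable def nu (D : Type) (m : ℕ) : Measure ((D → Bool) × (D → Bool)) :=
  (mu (D × ℕ)).map (fun ω => (lay 0 ω, rs m 0 ω))

/-- every orbit of `p` is infinite -/
def InfOrb {I : Type} (p : Equiv.Perm I) : Prop := ∀ i, ∀ n : ℕ, 0 < n → (p ^ n) i ≠ i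

/-- a free action of the free group by permutations -/
def FreeAct {I : Type} (ρ : FreeGroup Bool →* Equiv.Perm I) : Prop := ∀ h i, ρ h i = i → h = 1

/-- Walsh function -/
def wal {I : Type} (A : Finset I) (ω : I → Bool) : ℝ := ∏ i ∈ A, if ω i then (-1 : ℝ) else 1

/-- the index set of the group `K_x` -/
abbrev J : Type := (ℤ →₀ ℤ) × ℤ

/-- `e ↦ ∑_{k ≥ 1} x (k - 1) e_k` -/
noncomputable def B (x : ℕ → Bool) (e : ℤ →₀ ℤ) : ℤ :=
  e.sum (fun k v => if 0 < k ∧ x (k - 1).toNat = true then v else 0)

/-- the shift of the finitely supported functions, `δ_k ↦ δ_(k+1)` -/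
noncomputable def shf : (ℤ →₀ ℤ) ≃ (ℤ →₀ ℤ) := (Finsupp.domLCongr (R := ℤ) (M := ℤ)
  (Equiv.addRight (1 : ℤ))).toEquiv

/-- the generator `t` -/
noncomputable def tP : Equiv.Perm J := Equiv.prodCongr shf (Equiv.refl ℤ)

/-- the generator `a` -/
noncomputable def aP (x : ℕ → Bool) : Equiv.Perm J where
  toFun q := (q.1 + Finsupp.single 0 1, q.2 + B x q.1)
  invFun q := (q.1 - Finsupp.single 0 1, q.2 - B x (q.1 - Finsupp.single 0 1))
  left_inv q := by simp
  right_inv q := by simp

/-- the action of the free group on `J` attached to `x` -/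
noncomputable def piJ (x : ℕ → Bool) : FreeGroup Bool →* Equiv.Perm J :=
  FreeGroup.lift (fun s => if s then aP x else tP)

/-- the words which read the bit `n` of `x` -/
def wd (n : ℕ) : FreeGroup Bool :=
  ⁅FreeGroup.of true, (FreeGroup.of false) ^ (n + 1) * FreeGroup.of true *
    ((FreeGroup.of false) ^ (n + 1))⁻¹⁆

/-- the index set of the fibres -/
abbrev D0 : Type := FreeGroup Bool × J

/-- left multiplication on the first coordinate -/
def rhoD : FreeGroup Bool →* Equiv.Perm D0 where
  toFun h := Equiv.prodCongr (Equiv.mulLeft h) (Equiv.refl J)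
  map_one' := by ext ⟨u, j⟩ <;> simp
  map_mul' h k := by ext ⟨u, j⟩ <;> simp [mul_assoc]

/-- the group attached to `x` acts on the second coordinate -/
noncomputable def piD (x : ℕ → Bool) : FreeGroup Bool →* Equiv.Perm D0 where
  toFun k := Equiv.prodCongr (Equiv.refl _) (piJ x k)
  map_one' := by ext ⟨u, j⟩ <;> simp
  map_mul' h k := by ext ⟨u, j⟩ <;> simp

end H14.ES
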