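import Pool.Agent.H14.ES.Main
import Pool.Agent.H4.ES.SPL

/-!
Final assembly of `MP_9214e0_lc`: block I (`S_MAI2`), block II (`S_BR`) and the coding (`S_COD`).
-/

set_option autoImplicit false

namespace H14.ES

open MeasureTheory Set
open Pool.Agent.W868 (IsZFC nat)
open scoped ENNReal

theorem coin_single (b : Bool) : coin {b} = 2⁻¹ := by
  unfold coin
  rw [Measure.smul_apply, Measure.add_apply, Measure.dirac_apply, Measure.dirac_apply,
    smul_eq_mul]
  cases b <;> simp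

theorem mu_single (x : ℕ → Bool) : mu ℕ {x} = 0 := by
  have h : ∀ n : ℕ, mu ℕ {x} ≤ (2⁻¹ : ℝ≥0∞) ^ n := by
    intro n
    have h1 : ({x} : Set (ℕ → Bool)) ⊆ Set.pi (Finset.range n : Set ℕ) (fun i => {x i}) := by
      rintro y hy i -
      rw [mem_singleton_iff] at hy
      rw [hy]
      rfl
    refine (measure_mono h1).trans (le_of_eq ?_)
    unfold mu
    rw [Measure.infinitePi_pi _ (fun i _ => measurableSet_singleton _)]
    simp only [coin_single, Finset.prod_const, Finset.card_range]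
  have h2 : Filter.Tendsto (fun n : ℕ => (2⁻¹ : ℝ≥0∞) ^ n) Filter.atTop (nhds 0) :=
    ENNReal.tendsto_pow_atTop_nhds_zero_of_lt_one (by simp)
  exact le_antisymm (ge_of_tendsto' h2 h) bot_le

instance : Countable (FreeGroup Bool) :=
  Function.Injective.countable (f := FreeGroup.toWord) FreeGroup.toWord_injective

/-- an infinite set of coordinates is not determined -/
theorem mu_cyl_zero {D : Type} (g : ℕ → D) (hg : Function.Injective g) (b : ℕ → Bool) :
    mu D {y | ∀ m, y (g m) = b m} = 0 := by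
  have h := H4.ES.inj_mp g hg
  have h1 : {y : D → Bool | ∀ m, y (g m) = b m} = (fun (ω : D → Bool) (k : ℕ) => ω (g k)) ⁻¹' {b} := by
    ext y
    simp only [mem_setOf_eq, mem_preimage, mem_singleton_iff]
    exact funext_iff.symm
  rw [h1, h.measure_preimage (measurableSet_singleton b).nullMeasurableSet, mu_single]

/-- mixing two independent configurations gives a configuration with the same law -/
theorem mixn_mp (n : ℕ) :
    MeasurePreserving (fun q : (D1 → Bool) × (D1 → Bool) => mixn n q.1 q.2)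
      ((mu D1).prod (mu D1)) (mu D1) := by
  have h := H4.ES.glue_mp (I := D1) (I' := D1) (K := D1)
    (fun d => if d.2.1 = n ∧ d.2.2.1 = (n : ℤ) + 1 then Sum.inr d else Sum.inl d) (by
      intro d d' hdd
      dsimp only at hdd
      split_ifs at hdd
      · exact Sum.inr_injective hdd
      · exact Sum.inl_injective hdd)
  convert h using 1
  funext q d
  unfold mixn
  split_ifs <;> rfl

theorem fin_abs (hMAI : S_MAI2) (hCOD : S_COD) {X : Type 1} [MeasurableSpace X] (E : X → X → Prop)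
    (hsymm : ∀ x y, E x y → E y x) (Θ : (ℕ → Bool) → X) (hΘ : Measurable Θ) (N : Set (ℕ → Bool))
    (hN : MeasurableSet N) (hN0 : mu ℕ Nᶜ = 0) (hcount : ∀ G : X, {r | r ∈ N ∧ E (Θ r) G}.Countable)
    (hite : ∀ w, IteAut w → ∀ᵐ r ∂(mu ℕ), E (Θ (w r)) (Θ r)) : ¬ EssFree E := by
  intro hE
  obtain ⟨e, he, hsurj, hrho, hpi⟩ := hCOD
  obtain ⟨Γ, iG, iC, Y, iM, iS, iA, hmeas, hfree, f0, hf0, hred⟩ := hE
  -- the gluing map
  have hglue : MeasurePreserving (glu e)
      (((mu ℕ).prod (mu D1)).prod (mu ℕ)) (mu ℕ) := by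
    have h1 : MeasurePreserving
        (fun q : ((ℕ → Bool) × (D1 → Bool)) × (ℕ → Bool) =>
          ((Sum.elim q.1.1 q.1.2 : ℕ ⊕ D1 → Bool), q.2))
        (((mu ℕ).prod (mu D1)).prod (mu ℕ)) ((mu (ℕ ⊕ D1)).prod (mu ℕ)) :=
      (H4.ES.elim_mp ℕ D1).prod (MeasurePreserving.id (mu ℕ))
    exact (H4.ES.glue_mp e he).comp h1
  -- the reduction on the reals
  have hF : Measurable (fun q => f0 (Θ (glu e q))) := hf0.comp (hΘ.comp hglue.measurable)
  have hA : ∀ s, ∀ᵐ q ∂(((mu ℕ).prod (mu D1)).prod (mu ℕ)), ∃ l : Γ,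
      f0 (Θ (glu e ((q.1.1, sh (rho1 (FreeGroup.of s)) q.1.2), q.2))) = l • f0 (Θ (glu e q)) := by
    intro s
    obtain ⟨w, hw, hws⟩ := hrho s
    filter_upwards [hglue.quasiMeasurePreserving.ae (hite w hw)] with q hq
    have h1 : glu e ((q.1.1, sh (rho1 (FreeGroup.of s)) q.1.2), q.2) = w (glu e q) :=
      hws q.1.1 q.1.2 q.2
    rw [h1]
    exact (hred _ _).1 (hsymm _ _ hq)
  have hB : ∀ s, ∀ᵐ q ∂(((mu ℕ).prod (mu D1)).prod (mu ℕ)), ∃ l : Γ,
      f0 (Θ (glu e ((q.1.1, sh (pi1 q.1.1 (FreeGroup.of s)) q.1.2), q.2))) =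
        l • f0 (Θ (glu e q)) := by
    intro s
    obtain ⟨w, hw, hws⟩ := hpi s
    filter_upwards [hglue.quasiMeasurePreserving.ae (hite w hw)] with q hq
    have h1 : glu e ((q.1.1, sh (pi1 q.1.1 (FreeGroup.of s)) q.1.2), q.2) = w (glu e q) :=
      hws q.1.1 q.1.2 q.2
    rw [h1]
    exact (hred _ _).1 (hsymm _ _ hq)
  have hC : ∀ᵐ q ∂(((mu ℕ).prod (mu D1)).prod (mu ℕ)), glu e q ∈ N := by
    have h1 : ∀ᵐ r ∂(mu ℕ), r ∈ N := by
      rw [ae_iff]
      exact hN0
    exact hglue.quasiMeasurePreserving.ae h1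
  -- choose `u`
  have hswap : MeasurePreserving (Prod.swap : (ℕ → Bool) × ((ℕ → Bool) × (D1 → Bool)) → _)
      ((mu ℕ).prod ((mu ℕ).prod (mu D1))) (((mu ℕ).prod (mu D1)).prod (mu ℕ)) :=
    Measure.measurePreserving_swap
  have hall : ∀ᵐ q ∂(((mu ℕ).prod (mu D1)).prod (mu ℕ)), (∀ s, ∃ l : Γ,
      f0 (Θ (glu e ((q.1.1, sh (rho1 (FreeGroup.of s)) q.1.2), q.2))) = l • f0 (Θ (glu e q))) ∧
      (∀ s, ∃ l : Γ,
      f0 (Θ (glu e ((q.1.1, sh (pi1 q.1.1 (FreeGroup.of s)) q.1.2), q.2))) =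
        l • f0 (Θ (glu e q))) ∧ glu e q ∈ N := by
    filter_upwards [ae_all_iff.2 hA, ae_all_iff.2 hB, hC] with q h1 h2 h3
    exact ⟨h1, h2, h3⟩
  have hall' := Measure.ae_ae_of_ae_prod (hswap.quasiMeasurePreserving.ae hall)
  obtain ⟨u, hu⟩ := hall'.exists
  simp only [Prod.swap_prod_mk] at hu
  have hu' := Measure.ae_ae_of_ae_prod hu
  set f : (ℕ → Bool) × (D1 → Bool) → Y := fun p => f0 (Θ (glu e (p, u))) with hf
  have hfm : Measurable f := hF.comp (measurable_id.prodMk measurable_const)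
  refine hMAI Γ Y hmeas hfree f hfm ?_ ?_ ?_
  · intro s
    filter_upwards [hu'] with x0 h1
    filter_upwards [h1] with x h2
    exact h2.1 s
  · intro s
    filter_upwards [hu'] with x0 h1
    filter_upwards [h1] with x h2
    exact h2.2.1 s
  · filter_upwards [hu'] with x0 h1
    rintro ⟨n, hn⟩
    have hNx : ∀ᵐ x ∂(mu D1), glu e ((x0, x), u) ∈ N := by
      filter_upwards [h1] with x h2
      exact h2.2.2
    have hNxy := Measure.ae_ae_of_ae_prod ((mixn_mp n).quasiMeasurePreserving.ae hNx)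
    obtain ⟨x, hx1, hx2⟩ := (hn.and hNxy).exists
    have hcnt := hcount (Θ (glu e ((x0, x), u)))
    -- almost every `y` is in a null set
    have hy : ∀ᵐ y ∂(mu D1), y ∈ ⋃ c ∈ {r | r ∈ N ∧ E (Θ r) (Θ (glu e ((x0, x), u)))},
        {y : D1 → Bool | glu e ((x0, mixn n x y), u) = c} := by
      filter_upwards [hx1, hx2] with y ⟨l, h3⟩ h4
      rw [mem_iUnion₂]
      refine ⟨glu e ((x0, mixn n x y), u), ⟨h4, ?_⟩, rfl⟩
      exact hsymm _ _ ((hred _ _).2 ⟨l, h3⟩)
    have hnull : mu D1 (⋃ c ∈ {r | r ∈ N ∧ E (Θ r) (Θ (glu e ((x0, x), u)))},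
        {y : D1 → Bool | glu e ((x0, mixn n x y), u) = c}) = 0 := by
      rw [measure_biUnion_null_iff hcnt]
      intro c _
      have hg : Function.Injective (fun m : ℕ => ((1, (n, (n : ℤ) + 1, (m : ℤ))) : D1)) := by
        intro m m' h
        simp only [Prod.mk.injEq, true_and] at h
        exact_mod_cast h
      choose k hk using hsurj
      refine measure_mono_null ?_ (mu_cyl_zero _ hg
        (fun m => c (k ((1, (n, (n : ℤ) + 1, (m : ℤ))) : D1))))
      intro y hy m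
      simp only [mem_setOf_eq] at hy
      rw [← hy]
      unfold glu
      rw [hk]
      simp [mixn]
    have : (mu D1) univ = 0 := by
      have h5 : (mu D1) (⋃ c ∈ {r | r ∈ N ∧ E (Θ r) (Θ (glu e ((x0, x), u)))},
        {y : D1 → Bool | glu e ((x0, mixn n x y), u) = c})ᶜ = 0 := hy
      rw [← union_compl_self (⋃ c ∈ {r | r ∈ N ∧ E (Θ r) (Θ (glu e ((x0, x), u)))},
        {y : D1 → Bool | glu e ((x0, mixn n x y), u) = c})]
      exact measure_union_null hnull h5
    simp at this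

theorem fin_main (hMAI : S_MAI2) (hBR : S_BR) (hCOD : S_COD) : S_FINAL := by
  intro M hM hMc
  obtain ⟨Θ, hΘ, ⟨N, hN, hN0, hcount⟩, hite⟩ := hBR M hM hMc
  exact fin_abs hMAI hCOD (GenRel M) (fun _ _ h => h.symm) Θ hΘ N hN hN0 hcount hite

end H14.ES
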