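import Pool.Agent.H14.ES.Stm2
import Pool.Graph.R_pool_sql_team_seeded_3997aac3.Q207.CF.Defs

/-!
Definitions for the final theorem of `MP_9214e0_lc` and the bridge statement (block II).
-/

set_option autoImplicit false

namespace H14.ES

open MeasureTheory Set
open ZFSet (pair)
open Pool.Agent.W868 (IsZFC nat)
open Q207.CF (Ext IsGeneric)

/-- `x` is (the graph of) a function from `ω` to `{0, 1}` in `M`: an element of `2 ^ ω` of `M` -/
def IsRealIn (M : Set ZFSet.{0}) (x : ZFSet.{0}) : Prop :=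
  x ∈ M ∧ ZFSet.IsFunc ZFSet.omega {nat 0, nat 1} x

/-- `s` is a finite binary sequence of length `n` -/
def IsWord (n : ℕ) (s : ZFSet.{0}) : Prop := ZFSet.IsFunc (nat n) {nat 0, nat 1} s

/-- `b ⊆ 2 ^ ω` is a Borel set in `M`: it belongs to every `σ`-algebra of `M` on `2 ^ ω` that
contains the basic clopen sets -/
structure IsSigma (M : Set ZFSet.{0}) (S : ZFSet.{0}) : Prop where
  mem : S ∈ M
  sub : ∀ b ∈ S, ∀ x ∈ b, IsRealIn M x
  basic : ∀ n s, IsWord n s → ∃ b ∈ S, ∀ x, x ∈ b ↔ IsRealIn M x ∧ s ⊆ x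
  compl : ∀ b ∈ S, ∃ c ∈ S, ∀ x, x ∈ c ↔ IsRealIn M x ∧ x ∉ b
  union : ∀ f ∈ M, ZFSet.IsFunc ZFSet.omega S f →
    ∃ c ∈ S, ∀ x, x ∈ c ↔ ∃ i b, pair i b ∈ f ∧ x ∈ b

/-- `b` is a Borel subset of `2 ^ ω` in `M` -/
def IsBorelIn (M : Set ZFSet.{0}) (b : ZFSet.{0}) : Prop :=
  b ∈ M ∧ (∀ x ∈ b, IsRealIn M x) ∧ ∀ S, IsSigma M S → b ∈ S

/-- `b` has measure zero in `M`: for every `k` some sequence of `M` of finite binary words, of total
measure at most `2 ^ (-k)`, covers `b` -/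
def IsNullIn (M : Set ZFSet.{0}) (b : ZFSet.{0}) : Prop :=
  ∀ k : ℕ, ∃ f ∈ M, ∃ l : ℕ → ℕ, ∃ s : ℕ → ZFSet.{0},
    (∀ z, z ∈ f ↔ ∃ i, z = pair (nat i) (s i)) ∧ (∀ i, IsWord (l i) (s i)) ∧
    (∀ N, ∑ i ∈ Finset.range N, ((2 : ℝ) ^ (l i))⁻¹ ≤ ((2 : ℝ) ^ k)⁻¹) ∧
    ∀ x ∈ b, ∃ i, s i ⊆ x

/-- random forcing of `M`: the Borel subsets of `2 ^ ω` of positive measure, computed in `M` -/
def Rnd (M : Set ZFSet.{0}) : Set ZFSet.{0} := {b | IsBorelIn M b ∧ ¬ IsNullIn M b}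

/-- the space of the `M`-generic filters on random forcing, as a subspace of `2 ^ 𝔹` -/
def Gen (M : Set ZFSet.{0}) : Type 1 :=
  {G : Set (Rnd M) // IsGeneric M M (Rnd M) (fun p q => p ⊆ q) ((↑) '' G)}

/-- its Borel structure -/
instance (M : Set ZFSet.{0}) : MeasurableSpace (Gen M) :=
  inferInstanceAs (MeasurableSpace {G : Set (Rnd M) //
    IsGeneric M M (Rnd M) (fun p q => p ⊆ q) ((↑) '' G)})

/-- the extension `M[G]` -/
def Mext (M : Set ZFSet.{0}) (G : Gen M) : Set ZFSet.{0} :=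
  Ext M (Rnd M) ((↑) '' G.1)

/-- `G ≡ H` iff `M[G] = M[H]` -/
def GenRel (M : Set ZFSet.{0}) (G H : Gen M) : Prop := Mext M G = Mext M H

/-- `E` is essentially free: it is Borel reducible to the orbit equivalence relation of a free Borel
action of a countable group on a standard Borel space -/
def EssFree {X : Type 1} [MeasurableSpace X] (E : X → X → Prop) : Prop :=
  ∃ (Γ : Type) (_ : Group Γ) (_ : Countable Γ) (Y : Type) (_ : MeasurableSpace Y)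
    (_ : StandardBorelSpace Y) (_ : MulAction Γ Y), (∀ g : Γ, Measurable fun y : Y => g • y) ∧
    (∀ (g : Γ) (y : Y), g • y = y → g = 1) ∧
    ∃ f : X → Y, Measurable f ∧ ∀ x x', E x x' ↔ ∃ g : Γ, f x' = g • f x

/-- `r ↦ (j ↦ if r (c j) then r (u j) else r (v j))` -/
def ite3 (c u v : ℕ → ℕ) (r : ℕ → Bool) : ℕ → Bool := fun j => if r (c j) then r (u j) else r (v j)

/-- bijections of `2 ^ ℕ` of this form with primitive recursive `c`, `u`, `v`, whose inverse is of the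
same form -/
def IteAut (w : (ℕ → Bool) → (ℕ → Bool)) : Prop :=
  MeasurePreserving w (mu ℕ) (mu ℕ) ∧
  ∃ c u v c' u' v' : ℕ → ℕ, Nat.Primrec c ∧ Nat.Primrec u ∧ Nat.Primrec v ∧
    Nat.Primrec c' ∧ Nat.Primrec u' ∧ Nat.Primrec v' ∧ w = ite3 c u v ∧
    (∀ r, ite3 c' u' v' (w r) = r) ∧ (∀ r, w (ite3 c' u' v' r) = r)

/-- the real assembled from `x0`, `x`, `u` along `e` -/
def glu (e : ℕ → (ℕ ⊕ D1) ⊕ ℕ) (q : ((ℕ → Bool) × (D1 → Bool)) × (ℕ → Bool)) : ℕ → Bool :=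
  fun k => Sum.elim (Sum.elim q.1.1 q.1.2) q.2 (e k)

/-- COD. (200 lines.) Coding of the sites into `ℕ`. E.g. `e k` = `inl (inl n)` if `k = 3 n`, else
`inl (inr (u, (n, i, y)))` if `k = 3 m + 1` and `m` is the code (`Encodable`, lists, pairs) of
`(u.toWord, n, i', y')`, `i'`, `y'` = codes of the integers (`Equiv.intEquivNat`), else `inr k`.
The four generators: `rho1 (of s)` is `reduce ((s, true) :: L)` on reduced words
(`FreeGroup.reduce` is a `List.foldr`), `pi1 x0 (of false)` shifts `i`, `pi1 x0 (of true)` is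
`aF x0`, which reads one bit of `x0`. Mathlib's `Primrec` on `List`, `Prod`, `Bool`. Unused codes are
fixed. `MeasurePreserving w`: `w ∘ glu e = glu e ∘ T` with `T` measure preserving, `glu e` measure
preserving (`H4.ES.glue_mp`, `H4.ES.elim_mp`). -/
def S_COD : Prop := ∃ e : ℕ → (ℕ ⊕ D1) ⊕ ℕ, Function.Injective e ∧
  (∀ d, ∃ k, e k = Sum.inl (Sum.inr d)) ∧
  (∀ s, ∃ w, IteAut w ∧ ∀ x0 x u,
    glu e ((x0, sh (rho1 (FreeGroup.of s)) x), u) = w (glu e ((x0, x), u))) ∧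
  (∀ s, ∃ w, IteAut w ∧ ∀ x0 x u,
    glu e ((x0, sh (pi1 x0 (FreeGroup.of s)) x), u) = w (glu e ((x0, x), u)))

/-- BRIDGE (block II). -/
def S_BR : Prop := ∀ M : Set ZFSet.{0}, IsZFC M → M.Countable →
  ∃ Θ : (ℕ → Bool) → Gen M, Measurable Θ ∧
    (∃ N : Set (ℕ → Bool), MeasurableSet N ∧ mu ℕ Nᶜ = 0 ∧
      ∀ G : Gen M, {r | r ∈ N ∧ GenRel M (Θ r) G}.Countable) ∧
    ∀ w, IteAut w → ∀ᵐ r ∂(mu ℕ), GenRel M (Θ (w r)) (Θ r)

/-- the final theorem -/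
def S_FINAL : Prop := ∀ M : Set ZFSet.{0}, IsZFC M → M.Countable → ¬ EssFree (GenRel M)

end H14.ES
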