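import Pool.Agent.H14.ES.Defs

/-!
Statements of the parts, block I (crew ES, `MP_9214e0_lc`).  Every part is independent: prove
`theorem t_XXX (h1 : S_A) ... : S_XXX`, the hypotheses are named in the doc comments.
All types live in `Type`; countable groups `Λ` carry the discrete σ-algebra.
`mu I` = fair coins indexed by `I`; `sh p ω i = ω (p⁻¹ i)`, so `sh (p * q) = sh p ∘ sh q`.
-/

set_option autoImplicit false

namespace H14.ES

open MeasureTheory Set
open scoped ENNReal commutatorElement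

/-- REI. (30 lines.) Reindexing preserves the coin measure (`Measure.infinitePi_map_piCongrLeft`
or `Measure.eq_infinitePi`). -/
def S_REI : Prop := ∀ (I I' : Type) [Countable I] [Countable I'] (e : I' ≃ I),
  MeasurePreserving (fun ω : I → Bool => ω ∘ e) (mu I) (mu I')

/-- SPL. (50 lines.) Independent blocks of coins. (`Measure.eq_infinitePi` for the inverse map, or
uniqueness on the boxes.) -/
def S_SPL : Prop := ∀ (I I' : Type) [Countable I] [Countable I'],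
  MeasurePreserving (fun ω : I ⊕ I' → Bool => (ω ∘ Sum.inl, ω ∘ Sum.inr)) (mu (I ⊕ I'))
    ((mu I).prod (mu I'))

/-- REP. (60 lines, from S_SPL, S_REI or directly by `Measure.eq_infinitePi`.) Independent layers:
(1) replace layer `0` of `ω` by an independent `x`; (2) put `x` in front of the layers of `w`. -/
def S_REP : Prop := ∀ (D : Type) [Countable D],
  MeasurePreserving (fun (q : (D → Bool) × (D × ℕ → Bool)) (i : D × ℕ) =>
    if i.2 = 0 then q.1 i.1 else q.2 i) ((mu D).prod (mu (D × ℕ))) (mu (D × ℕ)) ∧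
  MeasurePreserving (fun (q : (D → Bool) × (D × ℕ → Bool)) (i : D × ℕ) =>
    if i.2 = 0 then q.1 i.1 else q.2 (i.1, i.2 - 1)) ((mu D).prod (mu (D × ℕ))) (mu (D × ℕ))

/-- APX. (60 lines.) Approximation by sets depending on finitely many coordinates
(the measurable cylinders generate; `MeasureTheory` approximation by an algebra, or the class of
the approximable sets is a σ-algebra). -/
def S_APX : Prop := ∀ (I : Type) [Countable I] (A : Set (I → Bool)), MeasurableSet A →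
  ∀ ε : ℝ≥0∞, ε ≠ 0 → ∃ (F : Finset I) (C : Set (I → Bool)), MeasurableSet C ∧
    (∀ ω ω' : I → Bool, (∀ i ∈ F, ω i = ω' i) → (ω ∈ C ↔ ω' ∈ C)) ∧ mu I (symmDiff A C) ≤ ε

/-- WAL. (120 lines, from S_APX if wanted.) Parseval for the Walsh functions. (They are
orthonormal; every function depending on finitely many coordinates is a combination of them;
density from S_APX. Or: bounded martingale / Hilbert basis.) -/
def S_WAL : Prop := ∀ (I : Type) [Countable I] (E : Set (I → Bool)), MeasurableSet E →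
  HasSum (fun A : Finset I => (∫ ω in E, wal A ω ∂(mu I)) ^ 2) ((mu I) E).toReal

/-- ERG. (80 lines, from S_REI, S_APX.) A permutation with infinite orbits acts ergodically:
approximate `A` by `C` depending on `F`; some power `p ^ n` moves `F` off itself (each `p ^ n i = j`
has at most one solution `n` for given `i, j`); then `C` and its translate are independent, so
`|μ A - (μ A)^2| ≤ 4 ε`. -/
def S_ERG : Prop := ∀ (I : Type) [Countable I] (p : Equiv.Perm I), InfOrb p →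
  ∀ A : Set (I → Bool), MeasurableSet A → (sh p ⁻¹' A =ᵐ[mu I] A) → mu I A = 0 ∨ mu I A = 1

/-- ERC. (40 lines, from S_ERG.) A measurable function to a standard Borel space invariant under
such a permutation is constant a.e. (embed the space in `ℝ` or use a countable separating
family.) -/
def S_ERC : Prop := ∀ (I : Type) [Countable I] (p : Equiv.Perm I), InfOrb p →
  ∀ (Y : Type) [MeasurableSpace Y] [StandardBorelSpace Y] (f : (I → Bool) → Y), Measurable f →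
  (∀ᵐ ω ∂(mu I), f (sh p ω) = f ω) → ∃ y, ∀ᵐ ω ∂(mu I), f ω = y

/-- ER4. (60 lines, from S_ERG, S_SPL.) Ergodicity on the product of four coin spaces. -/
def S_ER4 : Prop := ∀ (D : Type) [Countable D] (p : Equiv.Perm D), InfOrb p →
  ∀ A : Set (((D → Bool) × (D → Bool)) × ((D × ℕ → Bool) × (D × ℕ → Bool))), MeasurableSet A →
  ((fun q : ((D → Bool) × (D → Bool)) × ((D × ℕ → Bool) × (D × ℕ → Bool)) =>
    ((sh p q.1.1, sh p q.1.2), (sh (lift p) q.2.1, sh (lift p) q.2.2))) ⁻¹' A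
    =ᵐ[((mu D).prod (mu D)).prod ((mu (D × ℕ)).prod (mu (D × ℕ)))] A) →
  (((mu D).prod (mu D)).prod ((mu (D × ℕ)).prod (mu (D × ℕ)))) A = 0 ∨
  (((mu D).prod (mu D)).prod ((mu (D × ℕ)).prod (mu (D × ℕ)))) A = 1

/-- PAR. (120 lines.) Paradoxical decomposition. For a free action of the free group on `I` the
action on the nonempty finite subsets is free (a finite set fixed by `h` gives `h ^ n = 1` for some
`n ≥ 1`, `FreeGroup.infinite_order`), so there is `r : nonempty finite sets → FreeGroup Bool` with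
`r (h A) = h r(A)`. With `W_s = {A : the reduced word of r(A) starts with the letter s}` one has
`N = W_a ⊔ a W_(a⁻¹) = W_b ⊔ b W_(b⁻¹)` (`N` = nonempty finite sets), so
`2 m(N) ≤ m(N) + 2 κ`. -/
def S_PAR : Prop := ∀ (I : Type) (ρ : FreeGroup Bool →* Equiv.Perm I), FreeAct ρ →
  ∀ m : Finset I → ℝ, (∀ A, 0 ≤ m A) → Summable m → ∀ κ : ℝ,
  (∀ (s : Bool) (S : Set (Finset I)),
    ∑' A : S, m ((A : Finset I).map (ρ (FreeGroup.of s)).toEmbedding) ≤ ∑' A : S, m A + κ) →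
  ∑' A : {A : Finset I // A.Nonempty}, m A ≤ 2 * κ

/-- SGP. (200 lines, from S_PAR, S_WAL.) Spectral gap. Put
`F(x,A,λ) = ∫ 1{V(x,ω) = λ} wal A ω dω`, `m(A) = ∫_X Σ_λ F(x,A,λ)^2`; `Σ_A m(A) = 1` by S_WAL, and
`m(∅) = ∫_X Σ_λ P_ω(V(x,ω) = λ)^2 ≤ P(V = v)` with `v(x)` a most likely value. The function
`1{V(T_s x, h_s ω) = θ_s(x) λ}` has distance `≤ √(2δ)` from `1{V(x,ω) = λ}` in `L²(X × Ω × Λ)` and
Walsh coefficients `F(T_s x, h_s A, θ_s(x) λ)` (`wal A (h⁻¹ ω) = wal (h A) ω`), so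
`|m(h_s S)^(1/2) - m(S)^(1/2)| ≤ √(2δ)` and `|m(h_s S) - m(S)| ≤ 2 √(2δ)` for every set `S` of finite
sets; S_PAR with `κ = 2 √(2δ)`. -/
def S_SGP : Prop := ∀ (D : Type) [Countable D] (ρ : FreeGroup Bool →* Equiv.Perm D), FreeAct ρ →
  ∀ (Λ : Type) [Countable Λ] [MeasurableSpace Λ] [DiscreteMeasurableSpace Λ]
    (X : Type) [MeasurableSpace X] (μX : Measure X) [IsProbabilityMeasure μX]
    (T : Bool → X → X), (∀ s, MeasurePreserving (T s) μX μX) →
  ∀ V : X × (D × ℕ → Bool) → Λ, Measurable V →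
  ∀ θ : Bool → X → Equiv.Perm Λ, (∀ s l, Measurable (fun x => θ s x l)) →
  ∀ δ : ℝ, 0 ≤ δ →
  (∀ s, (μX.prod (mu (D × ℕ))) {q | V (T s q.1, sh (lift (ρ (FreeGroup.of s))) q.2) ≠
    θ s q.1 (V q)} ≤ ENNReal.ofReal δ) →
  ∃ v : X → Λ, Measurable v ∧
    (μX.prod (mu (D × ℕ))) {q | V q ≠ v q.1} ≤ ENNReal.ofReal (4 * Real.sqrt (2 * δ))

/-- PSH. (50 lines.) Sitewise maps: the law of the pair of configurations
`d ↦ τ (ω(d, ·))` is determined by the law of `τ` at one site (`Measure.infinitePi_map_curry`,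
`Measure.infinitePi_map_pi`). -/
def S_PSH : Prop := ∀ (D : Type) [Countable D] (τ τ' : (ℕ → Bool) → Bool × Bool), Measurable τ →
  Measurable τ' → (mu ℕ).map τ = (mu ℕ).map τ' →
  (mu (D × ℕ)).map (fun ω => ((fun d => (τ fun n => ω (d, n)).1 : D → Bool),
    (fun d => (τ fun n => ω (d, n)).2 : D → Bool))) =
  (mu (D × ℕ)).map (fun ω => ((fun d => (τ' fun n => ω (d, n)).1 : D → Bool),
    (fun d => (τ' fun n => ω (d, n)).2 : D → Bool)))

/-- SIT. (80 lines.) Law at one site: if the label `lab m u` lies in a set of `c` labels then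
(independent pair) else (equal pair). For all `a b : ℕ → Bool` describing: for every `j < 2 ^ m`,
`P(lab m u = j, u 0 = x, u 1 = y) = 2 ^ (-m) / 4`. -/
def S_SIT : Prop := ∀ (m j : ℕ), j < 2 ^ m → ∀ x y : Bool,
  mu ℕ {u | lab m u = j ∧ u 0 = x ∧ u 1 = y} = ((2 : ℝ≥0∞) ^ (m + 2))⁻¹

/-- LAW. (100 lines, from S_PSH, S_SIT.) (1) consecutive interpolation points have the law `nu`;
(2) `(layer 0, rs 1)` has the law `nu`; (3) the pair of the two resampled configurations has the law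
`nu m`; (4) the shift preserves `nu`; (5) the marginals of `nu` are `mu D`. (The one-site laws
are: equal pair with probability `1 - 2^(-m)`, independent pair otherwise.) -/
def S_LAW : Prop := ∀ (D : Type) [Countable D] (m : ℕ),
  (∀ j < 2 ^ m, (mu (D × ℕ)).map (fun ω => (pt m j ω, pt m (j + 1) ω)) = nu D m) ∧
  (1 ≤ m → (mu (D × ℕ)).map (fun ω => (lay 0 ω, rs m 1 ω)) = nu D m) ∧
  (mu (D × ℕ)).map (fun ω => (rs (m + 1) 0 ω, rs (m + 1) 1 ω)) = nu D m ∧
  (∀ p : Equiv.Perm D, (nu D m).map (fun q => (sh p q.1, sh p q.2)) = nu D m) ∧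
  (nu D m).map Prod.fst = mu D ∧ (nu D m).map Prod.snd = mu D

/-- DEL. (60 lines, from S_APX, S_LAW.) Resampling with small probability changes a measurable
function with countably many values with small probability: for a set `C` depending on `F`,
`P(1_C changes) ≤ |F| 2^(-m)`. -/
def S_DEL : Prop := ∀ (D : Type) [Countable D] (Λ : Type) [Countable Λ] [MeasurableSpace Λ]
    [DiscreteMeasurableSpace Λ] (g : (D → Bool) → Λ), Measurable g → ∀ ε : ℝ≥0∞, ε ≠ 0 →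
  ∃ m0, ∀ m ≥ m0, nu D m {q | g q.1 ≠ g q.2} ≤ ε

/-- UNI. (150 lines, from S_SGP, S_LAW, S_DEL, S_REP, S_REI.) Uniform closeness. Let `δ` small,
`m` large with `nu (m+1) {β s changes} ≤ δ` for both `s` (S_DEL). For `k` let
`V(x, ω) = α k (x^1)`, `x^1 d = if (label of ω at d) = 0 then (fresh bit of ω at d) else x d`
(`(x, x^1)` has the law `nu (m+1)`). By the identity (c2) at the point `x^1`,
`V(h_s x, h_s ω) = β_s(k x^1) V β_s(x^1)⁻¹ = β_s(k x) V(x,ω) β_s(x)⁻¹` with probability `≥ 1 - 2 δ`, so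
S_SGP (`T_s = sh (ρ (of s))`, `θ_s(x) l = β_s(k x) l β_s(x)⁻¹`) gives `v` with
`P(α k x^1 ≠ v(x)) ≤ 4 √(4 δ)`; the same for `x^2` (sites with label `1`), as `(x, x^2)` has the same
law; `(x^1, x^2)` has the law `nu m`. -/
def S_UNI : Prop := ∀ (D : Type) [Countable D] (ρ : FreeGroup Bool →* Equiv.Perm D), FreeAct ρ →
  ∀ (F : Type) [Group F] (π : F →* Equiv.Perm D), (∀ h k, ρ h * π k = π k * ρ h) →
  ∀ (Λ : Type) [Group Λ] [Countable Λ] [MeasurableSpace Λ] [DiscreteMeasurableSpace Λ]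
    (α : F → (D → Bool) → Λ) (β : Bool → (D → Bool) → Λ),
  (∀ k, Measurable (α k)) → (∀ s, Measurable (β s)) →
  (∀ s k, ∀ᵐ x ∂(mu D), β s (sh (π k) x) * α k x =
    α k (sh (ρ (FreeGroup.of s)) x) * β s x) →
  ∀ η : ℝ≥0∞, η ≠ 0 → ∃ m, ∀ k, nu D m {q | α k q.1 ≠ α k q.2} ≤ η

/-- MIN. (200 lines.) On `L²(W × Λ)` (counting measure on `Λ`) the group acts isometrically by
`(k · G)(T_k ξ, α1_k(ξ) λ α2_k(ξ)⁻¹) = G(ξ, λ)`; the orbit of `G0 = 1{λ = 1}` lies within
`√(2 η)`, `η = 1/100`, of `G0`. The element `G` of least norm in the closed convex hull of the orbit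
is invariant; `0 ≤ G`, `Σ_λ G(ξ, λ) ≤ 1` and `G(ξ, 1) > 1/2` for a positive set of `ξ`. The set of `ξ`
with `G(ξ, λ) > 1/2` for some (unique) `λ` is invariant, hence of full measure by ergodicity; `φ(ξ)` is
that `λ`. (For a countable group; other proofs welcome.) -/
def S_MIN : Prop := ∀ (W : Type) [MeasurableSpace W] (μW : Measure W) [IsProbabilityMeasure μW]
    (F : Type) [Group F] [Countable F] (T : F → W → W), (∀ ξ, T 1 ξ = ξ) →
  (∀ k k' ξ, T (k * k') ξ = T k (T k' ξ)) → (∀ k, MeasurePreserving (T k) μW μW) →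
  (∀ A : Set W, MeasurableSet A → (∀ k, T k ⁻¹' A =ᵐ[μW] A) → μW A = 0 ∨ μW A = 1) →
  ∀ (Λ : Type) [Group Λ] [Countable Λ] [MeasurableSpace Λ] [DiscreteMeasurableSpace Λ]
    (α1 α2 : F → W → Λ), (∀ k, Measurable (α1 k)) → (∀ k, Measurable (α2 k)) →
  (∀ k k', ∀ᵐ ξ ∂μW, α1 (k * k') ξ = α1 k (T k' ξ) * α1 k' ξ) →
  (∀ k k', ∀ᵐ ξ ∂μW, α2 (k * k') ξ = α2 k (T k' ξ) * α2 k' ξ) →
  (∀ k, μW {ξ | α1 k ξ ≠ α2 k ξ} ≤ 1 / 100) →
  ∃ φ : W → Λ, Measurable φ ∧
    ∀ k, ∀ᵐ ξ ∂μW, φ (T k ξ) = α1 k ξ * φ ξ * (α2 k ξ)⁻¹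

/-- CHN. (100 lines, from S_UNI, S_MIN, S_ERG, S_LAW, S_REI.) Take `m` from S_UNI for `1/100`. For
each `j < 2^m` S_MIN on `W = D × ℕ → Bool`, `T k = sh (lift (π k))`, `α1 k ω = α k (pt m j ω)`,
`α2 k ω = α k (pt m (j+1) ω)` gives `φ_j`; the product of the `φ_j` (in order) works, as `pt m 0` is
layer `0` and `pt m (2^m)` is layer `1` (`lab m u < 2^m`). -/
def S_CHN : Prop := ∀ (D : Type) [Countable D] (ρ : FreeGroup Bool →* Equiv.Perm D), FreeAct ρ →
  ∀ (F : Type) [Group F] [Countable F] (π : F →* Equiv.Perm D), (∀ h k, ρ h * π k = π k * ρ h) →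
  (∃ k, InfOrb (π k)) →
  ∀ (Λ : Type) [Group Λ] [Countable Λ] [MeasurableSpace Λ] [DiscreteMeasurableSpace Λ]
    (α : F → (D → Bool) → Λ) (β : Bool → (D → Bool) → Λ),
  (∀ k, Measurable (α k)) → (∀ s, Measurable (β s)) →
  (∀ k k', ∀ᵐ x ∂(mu D), α (k * k') x = α k (sh (π k') x) * α k' x) →
  (∀ s k, ∀ᵐ x ∂(mu D), β s (sh (π k) x) * α k x =
    α k (sh (ρ (FreeGroup.of s)) x) * β s x) →
  ∃ Φ : (D × ℕ → Bool) → Λ, Measurable Φ ∧ ∀ k, ∀ᵐ ω ∂(mu (D × ℕ)),
    Φ (sh (lift (π k)) ω) = α k (lay 0 ω) * Φ ω * (α k (lay 1 ω))⁻¹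

/-- UNT. (150 lines, from S_ER4, S_REP, S_REI, S_ERG.) Write `ω = (x, w)`, `x` = layer `0`, `w` = the
other layers (layer `1` of `ω` is layer `0` of `w`). `Ψ(x, z, w) = Φ(x, w) Φ(z, w)⁻¹` satisfies
`Ψ(kx, kz, kw) = α_k(x) Ψ(x, z, w) α_k(z)⁻¹`; the set `{Ψ(x, z, w) = Ψ(x, z, w')}` is invariant and of
positive measure (countably many values), so it has full measure by S_ER4. Fix a good `w'`:
`b(x) = Φ(x, w')`, `Ψ(x, z, w) = b(x) b(z)⁻¹` a.e., so
`b(kx)⁻¹ α_k(x) b(x) = b(kz)⁻¹ α_k(z) b(z)` for a.e. `(x, z)`: it is a constant `φ(k)`. -/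
def S_UNT : Prop := ∀ (D : Type) [Countable D] (F : Type) [Group F] [Countable F]
    (π : F →* Equiv.Perm D), (∃ k, InfOrb (π k)) →
  ∀ (Λ : Type) [Group Λ] [Countable Λ] [MeasurableSpace Λ] [DiscreteMeasurableSpace Λ]
    (α : F → (D → Bool) → Λ), (∀ k, Measurable (α k)) →
  (∀ k k', ∀ᵐ x ∂(mu D), α (k * k') x = α k (sh (π k') x) * α k' x) →
  ∀ Φ : (D × ℕ → Bool) → Λ, Measurable Φ → (∀ k, ∀ᵐ ω ∂(mu (D × ℕ)),
    Φ (sh (lift (π k)) ω) = α k (lay 0 ω) * Φ ω * (α k (lay 1 ω))⁻¹) →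
  ∃ (b : (D → Bool) → Λ) (φ : F →* Λ), Measurable b ∧
    ∀ k, ∀ᵐ x ∂(mu D), α k x = b (sh (π k) x) * φ k * (b x)⁻¹

/-- HOM. (120 lines, from S_CHN, S_UNT, S_REI.) `α k x` = the unique `l` with `f (k x) = l • f x`
(`1` if there is none; measurable because `Λ` is countable and `{y = y'}` is measurable), `β s x`
the same for `ρ (of s)`. The cocycle identities follow from freeness. `f' x = (b x)⁻¹ • f x`. -/
def S_HOM : Prop := ∀ (D : Type) [Countable D] (ρ : FreeGroup Bool →* Equiv.Perm D), FreeAct ρ →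
  ∀ (F : Type) [Group F] [Countable F] (π : F →* Equiv.Perm D), (∀ h k, ρ h * π k = π k * ρ h) →
  (∃ k, InfOrb (π k)) →
  ∀ (Λ : Type) [Group Λ] [Countable Λ] (Y : Type) [MeasurableSpace Y] [StandardBorelSpace Y]
    [MulAction Λ Y], (∀ l : Λ, Measurable (fun y : Y => l • y)) →
  (∀ (l : Λ) (y : Y), l • y = y → l = 1) →
  ∀ f : (D → Bool) → Y, Measurable f →
  (∀ s, ∀ᵐ x ∂(mu D), ∃ l : Λ, f (sh (ρ (FreeGroup.of s)) x) = l • f x) →
  (∀ k, ∀ᵐ x ∂(mu D), ∃ l : Λ, f (sh (π k) x) = l • f x) →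
  ∃ (f' : (D → Bool) → Y) (φ : F →* Λ), Measurable f' ∧ (∀ x, ∃ l : Λ, f' x = l • f x) ∧
    ∀ k, ∀ᵐ x ∂(mu D), f' (sh (π k) x) = φ k • f' x

/-- GRP. (120 lines.) The concrete groups: freeness, commutation, infinite orbits, and the words
`wd n` act by `(u, (e, z)) ↦ (u, (e, z + x n))`. (With `a_n = t^n a t^(-n)`:
`a_n (e, z) = (e + δ_n, z + Σ_(k ≥ 1) c_k e_(k+n))`, so `⁅a, a_n⁆` translates `z` by `c_n`,
`c_(n+1) = x n`.) -/
def S_GRP : Prop := FreeAct rhoD ∧ (∀ x h k, rhoD h * piD x k = piD x k * rhoD h) ∧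
  (∀ x, InfOrb (piD x (FreeGroup.of true))) ∧
  (∀ (x : ℕ → Bool) (n : ℕ) (u : FreeGroup Bool) (e : ℤ →₀ ℤ) (z : ℤ),
    piD x (wd n) (u, (e, z)) = (u, (e, z + if x n then 1 else 0)))

/-- MAI. (100 lines, from S_HOM, S_GRP, S_ERC.) Fix `x0` such that both generator properties hold a.e.
in the fibre (they pass to all group elements: products and inverses of measure preserving maps).
S_HOM gives `φ_x0 : FreeGroup Bool →* Λ` and `f'`. If `x0 n` is false then `wd n` acts trivially and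
`φ_x0 (wd n) = 1` by freeness; if `x0 n` is true and `φ_x0 (wd n) = 1` then `f'` is invariant under a
permutation with infinite orbits, so `f'` is a.e. constant `= y0` (S_ERC) and `f x ∈ Λ y0` a.e.
If this happens for almost no `x0`, then almost every `x0` is determined by
`(φ_x0 (of true), φ_x0 (of false)) ∈ Λ²`: a countable set of full measure, contradiction. -/
def S_MAI : Prop := ∀ (Λ : Type) [Group Λ] [Countable Λ] (Y : Type) [MeasurableSpace Y]
    [StandardBorelSpace Y] [MulAction Λ Y], (∀ l : Λ, Measurable (fun y : Y => l • y)) →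
  (∀ (l : Λ) (y : Y), l • y = y → l = 1) →
  ∀ f : (ℕ → Bool) × (D0 → Bool) → Y, Measurable f →
  (∀ s, ∀ᵐ x0 ∂(mu ℕ), ∀ᵐ x ∂(mu D0), ∃ l : Λ,
    f (x0, sh (rhoD (FreeGroup.of s)) x) = l • f (x0, x)) →
  (∀ s, ∀ᵐ x0 ∂(mu ℕ), ∀ᵐ x ∂(mu D0), ∃ l : Λ,
    f (x0, sh (piD x0 (FreeGroup.of s)) x) = l • f (x0, x)) →
  ¬ ∀ᵐ x0 ∂(mu ℕ), ¬ ∃ y0 : Y, ∀ᵐ x ∂(mu D0), ∃ l : Λ, f (x0, x) = l • y0

end H14.ES
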