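import Pool.Agent.H14.ES.Stm

/-!
New concrete index set (simpler for block II): sites `(n, i, y) : ℕ × ℤ × ℤ`; `t` shifts `i`; `a`
is the involution `y ↦ -y` at `i = 0`, and `y ↦ 1 - y` at `i = n + 1` if `x n`. (The definitions
`J`, `B`, ..., `D0`, `rhoD`, `piD` and the statements `S_GRP`, `S_MAI` of `Defs`/`Stm` are obsolete;
`wd` is still used.)
-/

set_option autoImplicit false

namespace H14.ES

open MeasureTheory Set
open scoped ENNReal commutatorElement

/-- sites -/
abbrev JJ : Type := ℕ × ℤ × ℤ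

/-- the generator `t` -/
def tQ : Equiv.Perm JJ where
  toFun q := (q.1, q.2.1 + 1, q.2.2)
  invFun q := (q.1, q.2.1 - 1, q.2.2)
  left_inv q := by simp
  right_inv q := by simp

/-- the involution `a` -/
def aF (x : ℕ → Bool) (q : JJ) : JJ :=
  (q.1, q.2.1, if q.2.1 = 0 then -q.2.2 else
    if q.2.1 = (q.1 : ℤ) + 1 ∧ x q.1 = true then 1 - q.2.2 else q.2.2)

lemma aF_aF (x : ℕ → Bool) (q : JJ) : aF x (aF x q) = q := by
  obtain ⟨n, i, y⟩ := q
  simp only [aF, Prod.mk.injEq, true_and]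
  split_ifs <;> ring

/-- the generator `a` -/
def aQ (x : ℕ → Bool) : Equiv.Perm JJ := ⟨aF x, aF x, aF_aF x, aF_aF x⟩

/-- the action of the free group on `JJ` attached to `x` -/
def piJJ (x : ℕ → Bool) : FreeGroup Bool →* Equiv.Perm JJ :=
  FreeGroup.lift (fun s => if s then aQ x else tQ)

/-- the index set of the fibres -/
abbrev D1 : Type := FreeGroup Bool × JJ

/-- left multiplication on the first coordinate -/
def rho1 : FreeGroup Bool →* Equiv.Perm D1 where
  toFun h := Equiv.prodCongr (Equiv.mulLeft h) (Equiv.refl JJ)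
  map_one' := by ext ⟨u, j⟩ <;> simp
  map_mul' h k := by ext ⟨u, j⟩ <;> simp [mul_assoc]

/-- the group attached to `x` acts on the second coordinate -/
def pi1 (x : ℕ → Bool) : FreeGroup Bool →* Equiv.Perm D1 where
  toFun k := Equiv.prodCongr (Equiv.refl _) (piJJ x k)
  map_one' := by ext ⟨u, j⟩ <;> simp
  map_mul' h k := by ext ⟨u, j⟩ <;> simp

/-- the configuration `x`, replaced by `y` at the sites moved by `wd n` (if `x0 n`) -/
def mixn (n : ℕ) (x y : D1 → Bool) : D1 → Bool :=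
  fun d => if d.2.1 = n ∧ d.2.2.1 = (n : ℤ) + 1 then y d else x d

/-- GRP2. (80 lines.) The concrete groups: freeness, commutation, infinite orbits, and the words
`wd n = ⁅a, t^(n+1) a t^(-(n+1))⁆`. (With `A_i` = the action of `a` at level `i` on the `m`-th copy,
`A_0 y = -y`, `A_(m+1) y = 1 - y` if `x m`, `A_i = id` else, the word acts at level `i` by
`A_i A_(i-n-1) A_i A_(i-n-1)`; both are nontrivial only for `i = m + 1 = n + 1`, `x n`, when it is
`y ↦ y + 2`.) -/
def S_GRP2 : Prop := FreeAct rho1 ∧ (∀ x h k, rho1 h * pi1 x k = pi1 x k * rho1 h) ∧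
  (∀ x, InfOrb (pi1 x (FreeGroup.of false))) ∧
  (∀ (x : ℕ → Bool) (n : ℕ) (u : FreeGroup Bool) (m : ℕ) (i y : ℤ),
    pi1 x (wd n) (u, (m, i, y)) =
      (u, (m, i, y + if m = n ∧ i = (n : ℤ) + 1 ∧ x n = true then 2 else 0)))

/-- INV. (80 lines, from S_ERC, S_SPL, S_REI, or S_ERG.) If `p` fixes all sites outside `C` and has
infinite orbits in `C`, then a `p`-invariant measurable function does not depend on the coordinates
in `C`. (Split `D = C ⊔ Cᶜ`; for a.e. `z` the function `f (·, z)` is invariant under an ergodic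
permutation, so a.e. constant.) -/
def S_INV : Prop := ∀ (D : Type) [Countable D] (p : Equiv.Perm D) (C : D → Prop) [DecidablePred C],
  (∀ d, ¬ C d → p d = d) → (∀ d, C d → ∀ n : ℕ, 0 < n → (p ^ n) d ≠ d) →
  ∀ (Y : Type) [MeasurableSpace Y] [StandardBorelSpace Y] (f : (D → Bool) → Y), Measurable f →
  (∀ᵐ x ∂(mu D), f (sh p x) = f x) →
  ∀ᵐ x ∂(mu D), ∀ᵐ y ∂(mu D), f (fun d => if C d then y d else x d) = f x

/-- MAI2. (100 lines, from S_HOM, S_GRP2, S_INV.) Suppose that for a.e. `x0` there is no such `n`.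
For a.e. `x0` both generator properties hold a.e. in the fibre, and they pass to all group elements
(products and inverses of measure preserving maps). S_HOM gives `φ_x0 : FreeGroup Bool →* Λ` and
`f'`. If `x0 n` is false then `wd n` acts trivially, so `φ_x0 (wd n) = 1` by freeness; if `x0 n` is true
then `φ_x0 (wd n) ≠ 1`: otherwise `f'` is `wd n`-invariant, S_INV gives `f' (mixn n x y) = f' x` for
a.e. `x`, a.e. `y`, and the (excluded) property holds with this `n`. So a.e. `x0` is determined by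
`(φ_x0 (of true), φ_x0 (of false)) ∈ Λ × Λ`: a countable set of full measure, contradiction. -/
def S_MAI2 : Prop := ∀ (Λ : Type) [Group Λ] [Countable Λ] (Y : Type) [MeasurableSpace Y]
    [StandardBorelSpace Y] [MulAction Λ Y], (∀ l : Λ, Measurable (fun y : Y => l • y)) →
  (∀ (l : Λ) (y : Y), l • y = y → l = 1) →
  ∀ f : (ℕ → Bool) × (D1 → Bool) → Y, Measurable f →
  (∀ s, ∀ᵐ x0 ∂(mu ℕ), ∀ᵐ x ∂(mu D1), ∃ l : Λ,
    f (x0, sh (rho1 (FreeGroup.of s)) x) = l • f (x0, x)) →
  (∀ s, ∀ᵐ x0 ∂(mu ℕ), ∀ᵐ x ∂(mu D1), ∃ l : Λ,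
    f (x0, sh (pi1 x0 (FreeGroup.of s)) x) = l • f (x0, x)) →
  ¬ ∀ᵐ x0 ∂(mu ℕ), ¬ ∃ n : ℕ, ∀ᵐ x ∂(mu D1), ∀ᵐ y ∂(mu D1), ∃ l : Λ,
    f (x0, mixn n x y) = l • f (x0, x)

end H14.ES
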